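import Pool.Agent.Y393.RS.All
import Pool.Agent.Q129.AAC.Main

/-!
# List total colouring of almost all `r`-colourable graphs

The list total colouring conjecture holds for almost all `r`-colourable graphs, almost all split
graphs, almost all complements of `r`-colourable graphs, and in general for almost all graphs whose
vertices can be partitioned into `r` parts, prescribed ones of them cliques and the others
independent; uniformly for all `2 ≤ r ≤ n ^ (1 / 6)`.

The graphs with a given partition are the graphs between two given graphs, to which the theorem of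
the starting file `RandomGraphs` applies. A graph of the class can have many partitions; the number
of pairs (graph, partition into large parts) is compared with the number of graphs by a second
moment argument: two partitions into large parts which have a common graph are equal up to a
permutation of the parts which respects the types and up to few vertices, or there are very few
graphs with both. Graphs with a partition with a small part are few. This argument is the one of
helper129 in `MP_2f9829_co.AlmostAllPartitionable`.
-/

set_option autoImplicit false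

namespace Pool.Agent.Results.MP_16dc44_co.AlmostAllPartitionable

/-- `c` is a proper total colouring of `G`. -/
def IsTotal {V : Type} (G : SimpleGraph V) {K : Type} (c : V ⊕ G.edgeSet → K) : Prop :=
  (∀ u v : V, G.Adj u v → c (Sum.inl u) ≠ c (Sum.inl v)) ∧
  (∀ e f : G.edgeSet, e ≠ f → (∃ v : V, v ∈ (e : Sym2 V) ∧ v ∈ (f : Sym2 V)) →
    c (Sum.inr e) ≠ c (Sum.inr f)) ∧
  (∀ (v : V) (e : G.edgeSet), v ∈ (e : Sym2 V) → c (Sum.inl v) ≠ c (Sum.inr e))

/-- The list total colouring conjecture for the graph `G`: if there is a proper total colouring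
with `k` colours, then there is one from all lists of at least `k` colours. -/
def ListTotal {V : Type} (G : SimpleGraph V) : Prop :=
  ∀ k : ℕ, (∃ c : V ⊕ G.edgeSet → Fin k, IsTotal G c) →
    ∀ L : V ⊕ G.edgeSet → Finset ℕ, (∀ x, k ≤ (L x).card) →
      ∃ c : V ⊕ G.edgeSet → ℕ, (∀ x, c x ∈ L x) ∧ IsTotal G c

/-- The vertices of `G` can be partitioned into `r` (possibly empty) parts `f v = i`, `i < r`, such
that the parts `i ∈ S` are cliques and the parts `i ∉ S` are independent sets. -/
def Partitionable {n r : ℕ} (S : Set (Fin r)) (G : SimpleGraph (Fin n)) : Prop :=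
  ∃ f : Fin n → Fin r, ∀ u v, u ≠ v → f u = f v → (G.Adj u v ↔ f u ∈ S)

/-- For every `ε > 0`, all large `n` and all `r` with `2 ≤ r ≤ n ^ (1 / 6)`:

(1) for every set `S` of indices, all but an `ε`-fraction of the graphs on `n` vertices which can be
partitioned into `r` parts, those of `S` cliques and the others independent sets, satisfy the list
total colouring conjecture;

(2) all but an `ε`-fraction of the `r`-colourable graphs on `n` vertices satisfy it;

(3) all but an `ε`-fraction of the graphs on `n` vertices whose complement is `r`-colourable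
satisfy it. -/
theorem result : ∀ ε : ℝ, 0 < ε → ∃ N : ℕ, ∀ n : ℕ, N ≤ n → ∀ r : ℕ, 2 ≤ r → r ^ 6 ≤ n →
    (∀ S : Set (Fin r),
      ({G : SimpleGraph (Fin n) | Partitionable S G ∧ ¬ ListTotal G}.ncard : ℝ) ≤
        ε * {G : SimpleGraph (Fin n) | Partitionable S G}.ncard) ∧
    ({G : SimpleGraph (Fin n) | G.Colorable r ∧ ¬ ListTotal G}.ncard : ℝ) ≤
      ε * {G : SimpleGraph (Fin n) | G.Colorable r}.ncard ∧
    ({G : SimpleGraph (Fin n) | Gᶜ.Colorable r ∧ ¬ ListTotal G}.ncard : ℝ) ≤
      ε * {G : SimpleGraph (Fin n) | Gᶜ.Colorable r}.ncard := by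
  intro ε hε
  obtain ⟨N, hN⟩ := Pool.Agent.Q129.AAC.almost_all (fun _ G => ListTotal G)
    (fun c ε hc hε => Pool.Agent.Y393.RS.typical_ltc.2.1 c ε hc hε) ε hε
  refine ⟨N, fun n hn r hr hr6 => ?_⟩
  have hall : ∀ S : Set (Fin r),
      ({G : SimpleGraph (Fin n) | Partitionable S G ∧ ¬ ListTotal G}.ncard : ℝ) ≤
        ε * {G : SimpleGraph (Fin n) | Partitionable S G}.ncard := fun S => hN n hn r hr hr6 S
  have h0 : ∀ G : SimpleGraph (Fin n), Partitionable (∅ : Set (Fin r)) G ↔ G.Colorable r := by
    intro G
    constructor
    · rintro ⟨f, hf⟩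
      exact ⟨SimpleGraph.Coloring.mk f (fun {u v} huv he => (hf u v huv.ne he).1 huv)⟩
    · rintro ⟨C⟩
      exact ⟨C, fun u v _ he => ⟨fun huv => absurd he (C.valid huv), fun h => h.elim⟩⟩
  have h1 : ∀ G : SimpleGraph (Fin n),
      Partitionable (Set.univ : Set (Fin r)) G ↔ Gᶜ.Colorable r := by
    intro G
    constructor
    · rintro ⟨f, hf⟩
      refine ⟨SimpleGraph.Coloring.mk f (fun {u v} huv he => ?_)⟩
      rw [SimpleGraph.compl_adj] at huv
      exact huv.2 ((hf u v huv.1 he).2 (Set.mem_univ _))
    · rintro ⟨C⟩
      refine ⟨C, fun u v hne he => ⟨fun _ => Set.mem_univ _, fun _ => ?_⟩⟩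
      by_contra hcon
      exact C.valid (show Gᶜ.Adj u v from (SimpleGraph.compl_adj _ _ _).2 ⟨hne, hcon⟩) he
  refine ⟨hall, ?_, ?_⟩
  · have h := hall ∅
    simp only [h0] at h
    exact h
  · have h := hall Set.univ
    simp only [h1] at h
    exact h

end Pool.Agent.Results.MP_16dc44_co.AlmostAllPartitionable
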