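import Pool.Agent.Y393.RS.All
import Pool.Agent.Q6.PS.Transfer

/-!
# List total colouring of almost all graphs without a given critical graph

Let `F` be a graph of chromatic number `r + 1 ≥ 3` with an edge whose deletion decreases the
chromatic number, for example a complete graph. Then the list total colouring conjecture holds for
almost all graphs which do not contain `F`, and for almost all graphs whose complements do not
contain `F`.

The proof contains a formal proof of the theorem of Prömel and Steger (for complete graphs: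
Kolaitis, Prömel and Rothschild) that almost all graphs which do not contain `F` are
`r`-colourable. Outline: the classes of the graphs in which a bounded set of vertices (a blow-up of
a clique, a vertex, an edge) has fewer possible attachments to the rest of the graph than in a random
`r`-partite graph are small by induction on the number of vertices. In the other graphs every
neighbourhood contains a large blow-up of a clique with `r - 1` vertices, and the set of the vertices
with many neighbours in all its classes is nearly the colour class of the vertex.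
-/

set_option autoImplicit false

namespace Pool.Agent.Results.MP_16dc44_co.CriticalFreeGraphs

/-- `c` is a proper total colouring of `G`. -/
def IsTotal {V : Type} (G : SimpleGraph V) {K : Type} (c : V ⊕ G.edgeSet → K) : Prop :=
  (∀ u v : V, G.Adj u v → c (Sum.inl u) ≠ c (Sum.inl v)) ∧
  (∀ e f : G.edgeSet, e ≠ f → (∃ v : V, v ∈ (e : Sym2 V) ∧ v ∈ (f : Sym2 V)) →
    c (Sum.inr e) ≠ c (Sum.inr f)) ∧
  (∀ (v : V) (e : G.edgeSet), v ∈ (e : Sym2 V) → c (Sum.inl v) ≠ c (Sum.inr e))

/-- The list total colouring conjecture for the graph `G`: if there is a proper total colouring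
with `k` colours, then there is one from all lists of at least `k` colours. -/
def ListTotal {V : Type} (G : SimpleGraph V) : Prop :=
  ∀ k : ℕ, (∃ c : V ⊕ G.edgeSet → Fin k, IsTotal G c) →
    ∀ L : V ⊕ G.edgeSet → Finset ℕ, (∀ x, k ≤ (L x).card) →
      ∃ c : V ⊕ G.edgeSet → ℕ, (∀ x, c x ∈ L x) ∧ IsTotal G c

/-- The graph `F` has no proper colouring with `r` colours, but some edge of `F` can be deleted such
that the rest has one. Hence `F` has chromatic number `r + 1`. -/
def HasCriticalEdge {A : Type} (F : SimpleGraph A) (r : ℕ) : Prop :=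
  ¬ F.Colorable r ∧ ∃ e ∈ F.edgeSet, (F.deleteEdges {e}).Colorable r

/-- (1) Let `F` be a finite graph of chromatic number `r + 1 ≥ 3` with an edge whose deletion
decreases the chromatic number, and let `ε > 0`. For all large `n`, all but an `ε`-fraction of the
graphs on `n` vertices which do not contain `F` (as a not necessarily induced subgraph) satisfy the
conjecture, and all but an `ε`-fraction of the graphs on `n` vertices whose complements do not
contain `F` satisfy it.

(2) In particular this holds for the graphs without `r + 1` pairwise adjacent vertices, and for the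
graphs without `r + 1` pairwise nonadjacent vertices, for every `r ≥ 2`. -/
theorem result :
    (∀ (A : Type) [Fintype A] (F : SimpleGraph A) (r : ℕ), 2 ≤ r → HasCriticalEdge F r →
      ∀ ε : ℝ, 0 < ε → ∃ N : ℕ, ∀ n : ℕ, N ≤ n →
        ({G : SimpleGraph (Fin n) | F.Free G ∧ ¬ ListTotal G}.ncard : ℝ) ≤
          ε * {G : SimpleGraph (Fin n) | F.Free G}.ncard ∧
        ({G : SimpleGraph (Fin n) | F.Free Gᶜ ∧ ¬ ListTotal G}.ncard : ℝ) ≤
          ε * {G : SimpleGraph (Fin n) | F.Free Gᶜ}.ncard) ∧
    ∀ r : ℕ, 2 ≤ r → ∀ ε : ℝ, 0 < ε → ∃ N : ℕ, ∀ n : ℕ, N ≤ n →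
      ({G : SimpleGraph (Fin n) | G.CliqueFree (r + 1) ∧ ¬ ListTotal G}.ncard : ℝ) ≤
        ε * {G : SimpleGraph (Fin n) | G.CliqueFree (r + 1)}.ncard ∧
      ({G : SimpleGraph (Fin n) | Gᶜ.CliqueFree (r + 1) ∧ ¬ ListTotal G}.ncard : ℝ) ≤
        ε * {G : SimpleGraph (Fin n) | Gᶜ.CliqueFree (r + 1)}.ncard := by
  have hP : Pool.Agent.Q6.HP.Typical (fun _ G => ListTotal G) :=
    fun c ε hc hε => Pool.Agent.Y393.RS.typical_ltc.2.1 c ε hc hε
  have h1 : ∀ (A : Type) [Fintype A] (F : SimpleGraph A) (r : ℕ), 2 ≤ r → HasCriticalEdge F r →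
      ∀ ε : ℝ, 0 < ε → ∃ N : ℕ, ∀ n : ℕ, N ≤ n →
        ({G : SimpleGraph (Fin n) | F.Free G ∧ ¬ ListTotal G}.ncard : ℝ) ≤
          ε * {G : SimpleGraph (Fin n) | F.Free G}.ncard ∧
        ({G : SimpleGraph (Fin n) | F.Free Gᶜ ∧ ¬ ListTotal G}.ncard : ℝ) ≤
          ε * {G : SimpleGraph (Fin n) | F.Free Gᶜ}.ncard := by
    intro A _ F r hr hF ε hε
    obtain ⟨N, hN⟩ := Pool.Agent.Q6.PS.transfer (fun _ G => ListTotal G) hP F r hr hF.1 hF.2 ε hε
    exact ⟨N, fun n hn => hN n hn⟩
  refine ⟨h1, fun r hr ε hε => ?_⟩
  obtain ⟨N, hN⟩ := h1 (Fin (r + 1)) ⊤ r hr (Pool.Agent.Q6.PS.top_critical r (by omega)) ε hε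
  refine ⟨N, fun n hn => ?_⟩
  have h2 := hN n hn
  have h3 : ∀ G : SimpleGraph (Fin n), (⊤ : SimpleGraph (Fin (r + 1))).Free G ↔
      G.CliqueFree (r + 1) := by
    intro G
    have h4 := SimpleGraph.cliqueFree_iff_top_free (G := G) (β := Fin (r + 1))
    rw [Fintype.card_fin] at h4
    exact h4.symm
  simp only [h3] at h2
  exact h2

end Pool.Agent.Results.MP_16dc44_co.CriticalFreeGraphs
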