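import Pool.Agent.Y393.RS.All
import Pool.Agent.Q6.HP.Cliques

/-!
# List total colouring of almost all graphs with a partition into hereditary classes

The list total colouring conjecture holds for almost all graphs whose vertices can be partitioned
into `r` parts which induce members of given hereditary classes with few one vertex extensions; in
particular for almost all graphs with a defective `r`-colouring, almost all generalised split graphs,
almost all graphs with a partition into `r` disjoint unions of few cliques.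

The graphs which have a given partition and given induced subgraphs on its parts are the graphs
between two graphs, to which the theorem of the starting file `RandomGraphs` applies; the passage to
the whole class is a second moment argument over the partitions, extending the one of helper129 for
partitions into cliques and independent sets.
-/

set_option autoImplicit false

namespace Pool.Agent.Results.MP_16dc44_co.HereditaryParts

/-- `c` is a proper total colouring of `G`. -/
def IsTotal {V : Type} (G : SimpleGraph V) {K : Type} (c : V ⊕ G.edgeSet → K) : Prop :=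
  (∀ u v : V, G.Adj u v → c (Sum.inl u) ≠ c (Sum.inl v)) ∧
  (∀ e f : G.edgeSet, e ≠ f → (∃ v : V, v ∈ (e : Sym2 V) ∧ v ∈ (f : Sym2 V)) →
    c (Sum.inr e) ≠ c (Sum.inr f)) ∧
  (∀ (v : V) (e : G.edgeSet), v ∈ (e : Sym2 V) → c (Sum.inl v) ≠ c (Sum.inr e))

/-- The list total colouring conjecture for the graph `G`: if there is a proper total colouring
with `k` colours, then there is one from all lists of at least `k` colours. -/
def ListTotal {V : Type} (G : SimpleGraph V) : Prop :=
  ∀ k : ℕ, (∃ c : V ⊕ G.edgeSet → Fin k, IsTotal G c) →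
    ∀ L : V ⊕ G.edgeSet → Finset ℕ, (∀ x, k ≤ (L x).card) →
      ∃ c : V ⊕ G.edgeSet → ℕ, (∀ x, c x ∈ L x) ∧ IsTotal G c


/-- A class of graphs, given by its members `Φ m` on the vertex sets `Fin m`, is closed under
induced subgraphs and isomorphisms. -/
def Hereditary (Φ : (m : ℕ) → Set (SimpleGraph (Fin m))) : Prop :=
  ∀ (m n : ℕ) (φ : Fin m ↪ Fin n) (G : SimpleGraph (Fin n)), G ∈ Φ n → G.comap φ ∈ Φ m

/-- Every graph on `m` vertices has at most `e m` extensions by one vertex in the class. -/
def FewExt (e : ℕ → ℕ) (Φ : (m : ℕ) → Set (SimpleGraph (Fin m))) : Prop :=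
  ∀ (m : ℕ) (H : SimpleGraph (Fin m)),
    {G : SimpleGraph (Fin (m + 1)) | G ∈ Φ (m + 1) ∧ G.comap Fin.castSucc = H}.ncard ≤ e m

/-- The function `e` grows subexponentially. -/
def Subexp (e : ℕ → ℕ) : Prop :=
  ∀ δ : ℝ, 0 < δ → ∀ᶠ m : ℕ in Filter.atTop, (e m : ℝ) ≤ (1 + δ) ^ m

/-- The vertices of `G` can be partitioned into `r` (possibly empty) parts `f v = i`, `i < r`, such
that the part `i` induces a member of the class `Φ i`. -/
def InParts {n r : ℕ} (Φ : Fin r → (m : ℕ) → Set (SimpleGraph (Fin m)))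
    (G : SimpleGraph (Fin n)) : Prop :=
  ∃ f : Fin n → Fin r, ∀ (i : Fin r) (m : ℕ) (φ : Fin m ↪ Fin n), (∀ a, f (φ a) = i) →
    G.comap φ ∈ Φ i m

/-- The vertices of `G` can be partitioned into `r` parts such that every vertex of a part `i ∈ S`
has at most `D` nonneighbours in its part, and every vertex of a part `i ∉ S` has at most `D`
neighbours in its part. -/
def Defective (D : ℕ) {n r : ℕ} (S : Set (Fin r)) (G : SimpleGraph (Fin n)) : Prop :=
  ∃ f : Fin n → Fin r, ∀ v, {u | u ≠ v ∧ f u = f v ∧ ¬ (G.Adj v u ↔ f v ∈ S)}.ncard ≤ D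

/-- The vertices of `G` can be partitioned into `r` parts such that the part `i` induces a disjoint
union of at most `k i` cliques (the cliques `g v = j`, `j < k i`). -/
def CliqueUnions {n r : ℕ} (k : Fin r → ℕ) (G : SimpleGraph (Fin n)) : Prop :=
  ∃ (f : Fin n → Fin r) (g : Fin n → ℕ), (∀ v, g v < k (f v)) ∧
    ∀ u v, u ≠ v → f u = f v → (G.Adj u v ↔ g u = g v)

/-- The vertices of `G` can be partitioned into a clique `A` and a set which induces a disjoint
union of cliques. A generalised split graph is a graph `G` such that `G` or its complement is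
unipolar. -/
def Unipolar {n : ℕ} (G : SimpleGraph (Fin n)) : Prop :=
  ∃ A : Set (Fin n), (∀ a ∈ A, ∀ b ∈ A, a ≠ b → G.Adj a b) ∧
    ∀ a b c, a ∉ A → b ∉ A → c ∉ A → a ≠ c → G.Adj a b → G.Adj b c → G.Adj a c

/-- For every `ε > 0` and every `r ≥ 2`, all but an `ε`-fraction of the graphs on `n` vertices of each of
the following classes satisfy the list total colouring conjecture, for all large `n`:

(1) the graphs whose vertices can be partitioned into `r` parts which induce members of hereditary
classes `Φ 0`, ..., `Φ (r - 1)` in which every graph on `m` vertices has at most `e m` extensions by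
one vertex, where `e` grows subexponentially (the bound on `n` depends on `e`, `r`, `ε` only);

(2) the graphs whose vertices can be partitioned into `r` parts such that every vertex has at most
`D` neighbours (in the parts of `S`: at most `D` nonneighbours) in its part;

(3) the graphs whose vertices can be partitioned into `r` parts, the part `i` a disjoint union of at
most `k i` cliques;

(4) the generalised split graphs. -/
theorem result :
    (∀ (e : ℕ → ℕ), Subexp e → ∀ r : ℕ, 2 ≤ r → ∀ ε : ℝ, 0 < ε → ∃ N : ℕ, ∀ n : ℕ, N ≤ n →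
      ∀ Φ : Fin r → (m : ℕ) → Set (SimpleGraph (Fin m)),
      (∀ i, Hereditary (Φ i)) → (∀ i m, (Φ i m).Nonempty) → (∀ i, FewExt e (Φ i)) →
      ({G : SimpleGraph (Fin n) | InParts Φ G ∧ ¬ ListTotal G}.ncard : ℝ) ≤
        ε * {G : SimpleGraph (Fin n) | InParts Φ G}.ncard) ∧
    (∀ D r : ℕ, 2 ≤ r → ∀ ε : ℝ, 0 < ε → ∃ N : ℕ, ∀ n : ℕ, N ≤ n → ∀ S : Set (Fin r),
      ({G : SimpleGraph (Fin n) | Defective D S G ∧ ¬ ListTotal G}.ncard : ℝ) ≤
        ε * {G : SimpleGraph (Fin n) | Defective D S G}.ncard) ∧
    (∀ r : ℕ, 2 ≤ r → ∀ ε : ℝ, 0 < ε → ∃ N : ℕ, ∀ n : ℕ, N ≤ n → ∀ k : Fin r → ℕ,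
      (∀ i, 1 ≤ k i) →
      ({G : SimpleGraph (Fin n) | CliqueUnions k G ∧ ¬ ListTotal G}.ncard : ℝ) ≤
        ε * {G : SimpleGraph (Fin n) | CliqueUnions k G}.ncard) ∧
    (∀ ε : ℝ, 0 < ε → ∃ N : ℕ, ∀ n : ℕ, N ≤ n →
      ({G : SimpleGraph (Fin n) | (Unipolar G ∨ Unipolar Gᶜ) ∧ ¬ ListTotal G}.ncard : ℝ) ≤
        ε * {G : SimpleGraph (Fin n) | Unipolar G ∨ Unipolar Gᶜ}.ncard) := by
  have hP : Pool.Agent.Q6.HP.Typical (fun _ G => ListTotal G) :=
    fun c ε hc hε => Pool.Agent.Y393.RS.typical_ltc.2.1 c ε hc hε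
  refine ⟨fun e he r hr ε hε => ?_, fun D r hr ε hε => ?_, fun r hr ε hε => ?_, fun ε hε => ?_⟩
  · obtain ⟨N, hN⟩ := Pool.Agent.Q6.HP.almost_all (fun _ G => ListTotal G) hP e he r hr ε hε
    exact ⟨N, fun n hn Φ h1 h2 h3 => hN n hn Φ h1 h2 h3⟩
  · obtain ⟨N, hN⟩ := Pool.Agent.Q6.HP.defective (fun _ G => ListTotal G) hP D r hr ε hε
    exact ⟨N, fun n hn S => hN n hn S⟩
  · obtain ⟨N, hN⟩ := Pool.Agent.Q6.HP.cliqueUnions (fun _ G => ListTotal G) hP r hr ε hε
    exact ⟨N, fun n hn k hk => hN n hn k hk⟩
  · obtain ⟨N, hN⟩ := Pool.Agent.Q6.HP.gen_split (fun _ G => ListTotal G) hP ε hε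
    exact ⟨N, fun n hn => hN n hn⟩

end Pool.Agent.Results.MP_16dc44_co.HereditaryParts
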